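import Mathlib

set_option autoImplicit false

namespace Pool.Agent.Results.MP_43980c_co.TwistedParallelism

section Defs
variable {P B : Type}

/-- the number of blocks incident with both points -/
noncomputable def joins (I : P → B → Prop) (x y : P) : ℕ∞ := {C | I x C ∧ I y C}.encard

/-- the number of points incident with both blocks -/
noncomputable def meets (I : P → B → Prop) (C D : B) : ℕ∞ := {x | I x C ∧ I x D}.encard

/-- affinely neighbouring blocks -/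
def NbA (I : P → B → Prop) (C D : B) : Prop :=
  (∀ x, I x C → ∃ y, I y D ∧ 1 < joins I x y) ∧ ∀ x, I x D → ∃ y, I y C ∧ 1 < joins I x y

/-- ordinary affine plane -/
def IsAffinePlane (J : P → B → Prop) : Prop :=
  (∀ x y, x ≠ y → ∃! L, J x L ∧ J y L) ∧
  (∀ x L, ¬ J x L → ∃! M, J x M ∧ ∀ z, ¬ (J z L ∧ J z M)) ∧
  ∃ x y z, x ≠ y ∧ x ≠ z ∧ y ≠ z ∧ ¬ ∃ L, J x L ∧ J y L ∧ J z L

/-- affine Hjelmslev plane with parallelism `par`; the last four clauses of the epimorphism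
are additional properties usually required in the literature -/
def IsAHPlane (I : P → B → Prop) (par : B → B → Prop) : Prop :=
  (∀ x y, 1 ≤ joins I x y) ∧ Equivalence par ∧ (∀ p C, ∃! D, I p D ∧ par C D) ∧
  (∀ C D, C ≠ D → NbA I C D → meets I C D ≠ 1) ∧
  ∃ (P' B' : Type) (J : P' → B' → Prop) (μ : P → P') (ν : B → B'), IsAffinePlane J ∧
    Function.Surjective μ ∧ Function.Surjective ν ∧ (∀ x C, I x C → J (μ x) (ν C)) ∧
    (∀ x y, μ x = μ y ↔ 1 < joins I x y) ∧ (∀ C D, ν C = ν D ↔ NbA I C D) ∧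
    (∀ x C, J (μ x) (ν C) → ∃ y, μ y = μ x ∧ I y C) ∧
    (∀ C D, ν C ≠ ν D → meets I C D ≤ 1) ∧
    (∀ C D, ν C ≠ ν D → (∃ z, J z (ν C) ∧ J z (ν D)) → meets I C D = 1) ∧
    ∀ C D, par C D → ν C = ν D ∨ ∀ z, ¬ (J z (ν C) ∧ J z (ν D))

/-- translation: an automorphism fixing all blocks of some parallel class, which is the
identity or fixes no point -/
def IsTranslation (I : P → B → Prop) (par : B → B → Prop) (f : P ≃ P) (g : B ≃ B) : Prop :=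
  (∀ x C, I (f x) (g C) ↔ I x C) ∧ (∃ C, ∀ D, par C D → g D = D) ∧
    ((f = Equiv.refl P ∧ g = Equiv.refl B) ∨ ∀ x, f x ≠ x)

end Defs

@[ext] structure Pt where
  x0 : ℚ
  x1 : ℚ
  y0 : ℚ
  y1 : ℚ

inductive Bl
  | h (m0 m1 c0 c1 : ℚ) : Bl
  | v (m1 c0 c1 : ℚ) : Bl

def I0 : Pt → Bl → Prop
  | p, .h m0 m1 c0 c1 => p.y0 = m0 * p.x0 + c0 ∧ p.y1 = m0 * p.x1 + m1 * p.x0 + c1
  | p, .v m1 c0 c1 => p.x0 = c0 ∧ p.x1 = m1 * p.y0 + c1

/-- the twist -/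
def tw (m0 c0 : ℚ) : ℚ := if m0 = 1 then Int.fract c0 else 0

def cls : Bl → Option ℚ × ℚ
  | .h m0 m1 c0 _ => (some m0, m1 + tw m0 c0)
  | .v m1 _ _ => (none, m1)

def par0 (C D : Bl) : Prop := cls C = cls D

def J0 : ℚ × ℚ → Option ℚ × ℚ → Prop
  | p, (some m, c) => p.2 = m * p.1 + c
  | p, (none, c) => p.1 = c

def μ0 (p : Pt) : ℚ × ℚ := (p.x0, p.y0)

def ν0 : Bl → Option ℚ × ℚ
  | .h m0 _ c0 _ => (some m0, c0)
  | .v _ c0 _ => (none, c0)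

theorem J0_ext {L M : Option ℚ × ℚ} {x y : ℚ × ℚ} (hxy : x ≠ y) (a : J0 x L) (b : J0 y L)
    (c : J0 x M) (d : J0 y M) : L = M := by
  obtain ⟨x1, x2⟩ := x
  obtain ⟨y1, y2⟩ := y
  simp only [ne_eq, Prod.mk.injEq] at hxy
  rcases L with ⟨_ | m, e⟩ <;> rcases M with ⟨_ | m', e'⟩ <;> simp only [J0] at a b c d <;>
    simp only [Prod.mk.injEq, Option.some.injEq, true_and] <;> grind

theorem aff : IsAffinePlane J0 := by
  refine ⟨fun x y hxy => ?_, fun x L hL => ?_, (0, 0), (1, 0), (0, 1), by simp, by simp, by simp,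
    ?_⟩
  · refine existsUnique_of_exists_of_unique ?_ fun L M h k => J0_ext hxy h.1 h.2 k.1 k.2
    by_cases h : x.1 = y.1
    · exact ⟨(none, x.1), rfl, h.symm⟩
    · have := sub_ne_zero.2 h
      refine ⟨(some ((x.2 - y.2) / (x.1 - y.1)), x.2 - (x.2 - y.2) / (x.1 - y.1) * x.1), ?_, ?_⟩
      · simp [J0]
      · simp only [J0]; field_simp; ring
  · rcases L with ⟨_ | m, e⟩
    · refine ⟨(none, x.1), ⟨rfl, fun z h => hL (h.2.symm.trans h.1)⟩, ?_⟩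
      rintro ⟨_ | m', e'⟩ ⟨h1, h2⟩
      · simp only [J0] at h1; rw [h1]
      · exact (h2 (e, m' * e + e') ⟨rfl, rfl⟩).elim
    · refine ⟨(some m, x.2 - m * x.1), ⟨by simp [J0], fun z h => hL ?_⟩, ?_⟩
      · simp only [J0] at h ⊢; linarith [h.1, h.2]
      rintro ⟨_ | m', e'⟩ ⟨h1, h2⟩
      · exact (h2 (e', m * e' + e) ⟨rfl, rfl⟩).elim
      · by_cases hm : m = m'
        · simp only [J0] at h1; rw [h1, hm]; simp
        · have := sub_ne_zero.2 hm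
          refine (h2 ((e' - e) / (m - m'), m * ((e' - e) / (m - m')) + e) ⟨rfl, ?_⟩).elim
          simp only [J0]; field_simp; ring
  · rintro ⟨⟨_ | m, e⟩, h1, h2, h3⟩ <;> simp only [J0] at h1 h2 h3 <;> grind

theorem inc (x : Pt) (C : Bl) (h : I0 x C) : J0 (μ0 x) (ν0 C) := by
  cases C <;> exact h.1

theorem lift (x : ℚ × ℚ) (C : Bl) (h : J0 x (ν0 C)) : ∃ y, μ0 y = x ∧ I0 y C := by
  cases C with
  | h m0 m1 c0 c1 => exact ⟨⟨x.1, 0, x.2, m0 * 0 + m1 * x.1 + c1⟩, rfl, h, rfl⟩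
  | v m1 c0 c1 => exact ⟨⟨x.1, m1 * x.2 + c1, x.2, 0⟩, rfl, h, rfl⟩

theorem uniq {x y : Pt} (h : μ0 x ≠ μ0 y) {C D : Bl} (a : I0 x C) (b : I0 y C) (c : I0 x D)
    (d : I0 y D) : C = D := by
  have := J0_ext h (inc _ _ a) (inc _ _ b) (inc _ _ c) (inc _ _ d)
  simp only [μ0, ne_eq, Prod.mk.injEq] at h
  cases C <;> cases D <;> simp only [I0] at a b c d <;>
    simp only [ν0, Prod.mk.injEq, Option.some.injEq, reduceCtorEq, false_and, true_and] at this <;>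
    simp only [Bl.h.injEq, Bl.v.injEq] <;> grind

theorem nb (x y : Pt) : μ0 x = μ0 y ↔ 1 < joins I0 x y := by
  rw [joins, Set.one_lt_encard_iff_nontrivial]
  refine ⟨fun h => ?_, fun ⟨C, hC, D, hD, h⟩ => by_contra fun k =>
    h (uniq k hC.1 hC.2 hD.1 hD.2)⟩
  simp only [μ0, Prod.mk.injEq] at h
  by_cases k : x.x1 = y.x1
  · exact ⟨.v 0 x.x0 x.x1, by simp [I0, h, k], .v 1 x.x0 (x.x1 - x.y0), by simp [I0, h, k],
      by simp⟩
  · have := sub_ne_zero.2 k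
    obtain ⟨m, hm⟩ : ∃ m, m * (x.x1 - y.x1) = x.y1 - y.y1 := ⟨_, div_mul_cancel₀ _ this⟩
    refine ⟨.h m 0 (x.y0 - m * x.x0) (x.y1 - m * x.x1), ?_,
      .h m 1 (x.y0 - m * x.x0) (x.y1 - m * x.x1 - x.x0), ?_, by simp⟩ <;>
      simp only [I0, Set.mem_setOf_eq] <;> grind

theorem joined (x y : Pt) : 1 ≤ joins I0 x y := by
  by_cases h : μ0 x = μ0 y
  · exact ((nb x y).1 h).le
  rw [joins, Set.one_le_encard_iff_nonempty]
  simp only [μ0, Prod.mk.injEq] at h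
  by_cases k : x.x0 = y.x0
  · have : x.y0 - y.y0 ≠ 0 := sub_ne_zero.2 fun e => h ⟨k, e⟩
    obtain ⟨m, hm⟩ : ∃ m, m * (x.y0 - y.y0) = x.x1 - y.x1 := ⟨_, div_mul_cancel₀ _ this⟩
    refine ⟨.v m x.x0 (x.x1 - m * x.y0), ?_⟩
    simp only [I0, Set.mem_setOf_eq]; grind
  · have := sub_ne_zero.2 k
    obtain ⟨m, hm⟩ : ∃ m, m * (x.x0 - y.x0) = x.y0 - y.y0 := ⟨_, div_mul_cancel₀ _ this⟩
    obtain ⟨n, hn⟩ : ∃ n, n * (x.x0 - y.x0) = x.y1 - y.y1 - m * (x.x1 - y.x1) :=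
      ⟨_, div_mul_cancel₀ _ this⟩
    refine ⟨.h m n (x.y0 - m * x.x0) (x.y1 - m * x.x1 - n * x.x0), ?_⟩
    simp only [I0, Set.mem_setOf_eq]; grind

theorem nba (C D : Bl) : ν0 C = ν0 D ↔ NbA I0 C D := by
  constructor
  · intro h
    refine ⟨fun x hx => ?_, fun x hx => ?_⟩
    · obtain ⟨y, h1, h2⟩ := lift (μ0 x) D (h ▸ inc x C hx)
      exact ⟨y, h2, (nb _ _).1 h1.symm⟩
    · obtain ⟨y, h1, h2⟩ := lift (μ0 x) C (h ▸ inc x D hx)
      exact ⟨y, h2, (nb _ _).1 h1.symm⟩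
  · intro h
    have key : ∀ z, J0 z (ν0 C) → J0 z (ν0 D) := fun z hz => by
      obtain ⟨x, rfl, hx⟩ := lift z C hz
      obtain ⟨y, h1, h2⟩ := h.1 x hx
      rw [(nb _ _).2 h2]
      exact inc _ _ h1
    obtain ⟨a, b, hab, ha, hb⟩ : ∃ a b, a ≠ b ∧ J0 a (ν0 C) ∧ J0 b (ν0 C) := by
      cases C with
      | h m0 m1 c0 c1 => exact ⟨(0, m0 * 0 + c0), (1, m0 * 1 + c0), by simp, rfl, rfl⟩
      | v m1 c0 c1 => exact ⟨(c0, 0), (c0, 1), by simp, rfl, rfl⟩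
    exact J0_ext hab ha hb (key a ha) (key b hb)

theorem meet_le (C D : Bl) (h : ν0 C ≠ ν0 D) : meets I0 C D ≤ 1 := by
  rw [meets, Set.encard_le_one_iff]
  intro x y hx hy
  have e : μ0 x = μ0 y := by_contra fun k =>
    h (J0_ext k (inc _ _ hx.1) (inc _ _ hy.1) (inc _ _ hx.2) (inc _ _ hy.2))
  simp only [μ0, Prod.mk.injEq] at e
  cases C <;> cases D <;> simp only [I0, Set.mem_setOf_eq] at hx hy <;>
    simp only [ν0, ne_eq, Prod.mk.injEq, Option.some.injEq, reduceCtorEq, false_and,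
      true_and] at h <;> ext <;> grind

theorem meet_eq (C D : Bl) (h : ν0 C ≠ ν0 D) (hz : ∃ z, J0 z (ν0 C) ∧ J0 z (ν0 D)) :
    meets I0 C D = 1 := by
  refine le_antisymm (meet_le C D h) ?_
  rw [meets, Set.one_le_encard_iff_nonempty]
  obtain ⟨⟨a, b⟩, h1, h2⟩ := hz
  rcases C with ⟨m0, m1, c0, c1⟩ | ⟨m1, c0, c1⟩ <;> rcases D with ⟨n0, n1, d0, d1⟩ | ⟨n1, d0, d1⟩ <;>
    simp only [ν0, J0] at h h1 h2
  · have : m0 - n0 ≠ 0 := fun e => h (by simp only [Prod.mk.injEq, Option.some.injEq]; grind)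
    obtain ⟨t, ht⟩ : ∃ t, t * (m0 - n0) = n1 * a + d1 - m1 * a - c1 := ⟨_, div_mul_cancel₀ _ this⟩
    refine ⟨⟨a, t, b, m0 * t + m1 * a + c1⟩, ?_⟩
    simp only [I0, Set.mem_setOf_eq]; grind
  · exact ⟨⟨a, n1 * b + d1, b, m0 * (n1 * b + d1) + m1 * a + c1⟩, ⟨h1, rfl⟩, h2, rfl⟩
  · exact ⟨⟨a, m1 * b + c1, b, n0 * (m1 * b + c1) + n1 * a + d1⟩, ⟨h1, rfl⟩, h2, rfl⟩
  · exact (h (by rw [← h1, ← h2])).elim

theorem ah : IsAHPlane I0 par0 := by
  refine ⟨joined, ⟨fun _ => rfl, Eq.symm, Eq.trans⟩, fun p C => ?_, fun C D _ h k => ?_,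
    _, _, J0, μ0, ν0, aff, fun x => ⟨⟨x.1, 0, x.2, 0⟩, rfl⟩, ?_, inc, nb, nba,
    fun x C => lift _ C, meet_le, meet_eq, fun C D h => ?_⟩
  · cases C with
    | h m0 m1 c0 c1 =>
      refine ⟨.h m0 (m1 + tw m0 c0 - tw m0 (p.y0 - m0 * p.x0)) (p.y0 - m0 * p.x0)
        (p.y1 - m0 * p.x1 - (m1 + tw m0 c0 - tw m0 (p.y0 - m0 * p.x0)) * p.x0),
        ⟨by simp only [I0]; grind, by simp [par0, cls]⟩, ?_⟩
      rintro (⟨n0, n1, d0, d1⟩ | _) ⟨h1, h2⟩ <;>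
        simp only [par0, cls, Prod.mk.injEq, Option.some.injEq, reduceCtorEq, false_and] at h2
      obtain ⟨rfl, h2⟩ := h2
      obtain rfl : d0 = p.y0 - m0 * p.x0 := by rw [h1.1]; ring
      simp only [I0] at h1
      simp only [Bl.h.injEq]; grind
    | v m1 c0 c1 =>
      refine ⟨.v m1 p.x0 (p.x1 - m1 * p.y0), ⟨by simp [I0], rfl⟩, ?_⟩
      rintro (_ | ⟨n1, d0, d1⟩) ⟨h1, h2⟩ <;>
        simp only [par0, cls, Prod.mk.injEq, reduceCtorEq, false_and, true_and] at h2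
      simp only [I0] at h1
      simp only [Bl.v.injEq]; grind
  · rw [← nba] at h
    obtain ⟨x, hx⟩ := Set.encard_eq_one.1 k
    have h1 : x ∈ {x | I0 x C ∧ I0 x D} := hx ▸ rfl
    rcases C with ⟨m0, m1, c0, c1⟩ | ⟨m1, c0, c1⟩ <;> cases D <;>
      simp only [ν0, Prod.mk.injEq, Option.some.injEq, reduceCtorEq, false_and, true_and] at h
    · have : (⟨x.x0, x.x1 + 1, x.y0, x.y1 + m0⟩ : Pt) ∈ ({x} : Set Pt) := by
        rw [← hx]; simp only [I0, Set.mem_setOf_eq] at h1 ⊢; grind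
      simpa using congrArg Pt.x1 this
    · have : (⟨x.x0, x.x1, x.y0, x.y1 + 1⟩ : Pt) ∈ ({x} : Set Pt) := hx ▸ h1
      simpa using congrArg Pt.y1 this
  · rintro ⟨_ | m, c⟩
    · exact ⟨.v 0 c 0, rfl⟩
    · exact ⟨.h m 0 c 0, rfl⟩
  · rw [or_iff_not_imp_right]
    intro k
    push Not at k
    obtain ⟨z, h1, h2⟩ := k
    cases C <;> cases D <;>
      simp only [par0, cls, Prod.mk.injEq, Option.some.injEq, reduceCtorEq, false_and] at h <;>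
      simp only [ν0, J0] at h1 h2 <;> simp only [ν0, Prod.mk.injEq, Option.some.injEq] <;> grind

def shP (a b : ℤ) : Pt ≃ Pt where
  toFun p := ⟨p.x0 + a, p.x1, p.y0 + b, p.y1⟩
  invFun p := ⟨p.x0 - a, p.x1, p.y0 - b, p.y1⟩
  left_inv p := by ext <;> simp
  right_inv p := by ext <;> simp

def shB' (a b : ℚ) : Bl → Bl
  | .h m0 m1 c0 c1 => .h m0 m1 (c0 + b - m0 * a) (c1 - m1 * a)
  | .v m1 c0 c1 => .v m1 (c0 + a) (c1 - m1 * b)

def shB (a b : ℤ) : Bl ≃ Bl where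
  toFun := shB' a b
  invFun := shB' (-a) (-b)
  left_inv C := by cases C <;> simp [shB']; ring
  right_inv C := by cases C <;> simp [shB']; ring

theorem sh_inc (a b : ℤ) (x : Pt) (C : Bl) : I0 (shP a b x) (shB a b C) ↔ I0 x C := by
  cases C <;> simp only [shP, shB, shB', I0, Equiv.coe_fn_mk] <;> grind

theorem sh_par (a b : ℤ) (C : Bl) : par0 C (shB a b C) := by
  cases C with
  | h m0 m1 c0 c1 =>
    simp only [shB, shB', par0, cls, tw, Equiv.coe_fn_mk]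
    split_ifs with h
    · rw [h, one_mul, Int.fract_sub_intCast, Int.fract_add_intCast]
    · rfl
  | v => rfl

theorem result : ∃ (P B : Type) (I : P → B → Prop) (par : B → B → Prop), IsAHPlane I par ∧
    ∃ (f f' : P ≃ P) (g g' : B ≃ B), IsTranslation I par f g ∧ IsTranslation I par f' g' ∧
      (∀ C, par C (g C)) ∧ (∀ C, par C (g' C)) ∧
      ¬ IsTranslation I par (f.trans f') (g.trans g') := by
  refine ⟨Pt, Bl, I0, par0, ah, shP 1 0, shP 0 1, shB 1 0, shB 0 1,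
    ⟨sh_inc 1 0, ⟨.h 0 0 0 0, ?_⟩, Or.inr fun x h => by simpa [shP] using congrArg Pt.x0 h⟩,
    ⟨sh_inc 0 1, ⟨.v 0 0 0, ?_⟩, Or.inr fun x h => by simpa [shP] using congrArg Pt.y0 h⟩,
    sh_par 1 0, sh_par 0 1, ?_⟩
  · rintro (⟨m0, m1, c0, c1⟩ | _) h <;>
      simp only [par0, cls, Prod.mk.injEq, Option.some.injEq, reduceCtorEq, false_and] at h
    obtain ⟨rfl, h⟩ := h
    simp [tw] at h
    simp [shB, shB', ← h]
  · rintro (_ | ⟨m1, c0, c1⟩) h <;>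
      simp only [par0, cls, Prod.mk.injEq, reduceCtorEq, false_and, true_and] at h
    simp [shB, shB', ← h]
  · rintro ⟨-, ⟨⟨m0, m1, c0, c1⟩ | ⟨m1, c0, c1⟩, h⟩, -⟩
    · have h1 := h (.h m0 (m1 + tw m0 c0 - tw m0 0) 0 0) (by simp [par0, cls])
      have h2 := h (.h m0 (m1 + tw m0 c0 - tw m0 (1 / 2)) (1 / 2) 0) (by simp [par0, cls])
      simp only [Equiv.trans_apply, shB, shB', Equiv.coe_fn_mk, Bl.h.injEq] at h1 h2
      push_cast at h1 h2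
      obtain rfl : m0 = 1 := by linarith [h1.2.2.1]
      have e1 : tw 1 0 = 0 := by simp [tw]
      have e2 : tw 1 (1 / 2) = 1 / 2 := by simp only [tw, if_true]; norm_num
      linarith [h1.2.2.2, h2.2.2.2]
    · have h1 := h _ rfl
      simp [shB, shB'] at h1

end Pool.Agent.Results.MP_43980c_co.TwistedParallelism
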